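import Pool.Agent.W24.NC.FixEnd

set_option autoImplicit false

/-!
# The prime ideals above an arbitrary set of tiny primes

Let `a > 1`, `1/a < c ≤ 1`, `ε > 0`, and `θ = max (0, 1/2 + 1/a - c)`; so `θ < 1/2`, and `θ = 0` for
`c ≥ 1/2 + 1/a`. There is `δ > 0` such that the following holds for all large `X`. Put `B = (log X)^a`
and let `P` be ANY set of at least `B^c` primes up to `B`. Then for all but `X^(1-δ)` of the
squarefree `d ≤ X`, with `K = ℚ(√d)` and `h` the class number:

* at least `h / X^(θ+ε)` ideal classes are products of at most `log X / log log X` classes of prime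
  ideals whose norm is in `P`;
* the subgroup of the class group generated by the classes of these prime ideals has index at most
  `X^(θ+ε)`;
* if the prime ideals whose norm is in `P` are principal, then `h ≤ X^(θ+ε)`.

For `P` the set of all the primes up to `B` this is (up to the form of the error terms) the starting
result `TinyPrimesIndex`. New: nothing is assumed of `P` but its size, and for large `a` little more
than `√B` primes suffice, for instance the primes up to `B` of the form `x^2 + y^4`, or in a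
residue class, or any subset of them of size `B^(1/2 + 1/a)`.
-/

namespace Pool.Agent.Results.MP_321647_nt.ArbitrarySetsOfTinyPrimes

open Finset NumberField
open scoped Classical

/-- The prime ideals whose norm is in the set `P`. -/
def Above (K : Type) [Field K] [NumberField K] (P : Finset ℕ) :
    Set (nonZeroDivisors (Ideal (𝓞 K))) :=
  {J | (J : Ideal (𝓞 K)).IsPrime ∧ Ideal.absNorm (J : Ideal (𝓞 K)) ∈ P}

/-- The ideal classes that are products of at most `n` classes of ideals of the set `W`. -/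
def Products (K : Type) [Field K] [NumberField K] (W : Set (nonZeroDivisors (Ideal (𝓞 K))))
    (n : ℝ) : Set (ClassGroup (𝓞 K)) :=
  {C | ∃ L : Multiset (nonZeroDivisors (Ideal (𝓞 K))), (∀ P ∈ L, P ∈ W) ∧
    (L.card : ℝ) ≤ n ∧ (L.map (fun P => ClassGroup.mk0 P)).prod = C}

/-- The subgroup of the class group generated by the classes of the prime ideals whose norm is in
`P`. -/
noncomputable def Gen (K : Type) [Field K] [NumberField K] (P : Finset ℕ) :
    Subgroup (ClassGroup (𝓞 K)) :=
  Subgroup.closure {c | ∃ J ∈ Above K P, ClassGroup.mk0 J = c}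

/-- The property of the squarefree integer `d` in the theorem. -/
def Good (P : Finset ℕ) (t n : ℝ) (d : ℕ) : Prop :=
  ∀ (K : Type) [Field K] [NumberField K], Module.finrank ℚ K = 2 → (∃ x : K, x ^ 2 = (d : K)) →
    (Nat.card (ClassGroup (𝓞 K)) : ℝ) ≤ t * ((Products K (Above K P) n).ncard : ℝ) ∧
    ((Gen K P).index : ℝ) ≤ t ∧
    ((∀ J ∈ Above K P, (J : Ideal (𝓞 K)).IsPrincipal) →
      (Nat.card (ClassGroup (𝓞 K)) : ℝ) ≤ t)

theorem products_sub (K : Type) [Field K] [NumberField K] (P : Finset ℕ) (n : ℝ) :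
    Products K (Above K P) n ⊆ (Gen K P : Set (ClassGroup (𝓞 K))) := by
  rintro C ⟨L, h1, -, rfl⟩
  refine Subgroup.multiset_prod_mem _ _ ?_
  intro c hc
  obtain ⟨J, hJ, rfl⟩ := Multiset.mem_map.1 hc
  exact Subgroup.subset_closure ⟨J, h1 J hJ, rfl⟩

theorem good_of (P : Finset ℕ) (t n : ℝ) (ht : 0 ≤ t) (d : ℕ)
    (h : Pool.Agent.W24.NC.GoodF P t n d) : Good P t n d := by
  intro K _ _ hK hx
  have h1 : (Nat.card (ClassGroup (𝓞 K)) : ℝ) ≤ t * ((Products K (Above K P) n).ncard : ℝ) :=
    h K hK hx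
  set G := Gen K P with hG
  have h2 : ((Products K (Above K P) n).ncard : ℝ) ≤ Nat.card G := by
    have h3 := Set.ncard_le_ncard (products_sub K P n) (Set.toFinite _)
    have h4 : ((G : Subgroup (ClassGroup (𝓞 K))) : Set (ClassGroup (𝓞 K))).ncard = Nat.card G :=
      rfl
    rw [← hG, h4] at h3
    exact_mod_cast h3
  have h5 : (0 : ℝ) < Nat.card G := by exact_mod_cast Nat.card_pos
  have h6 : (Nat.card (ClassGroup (𝓞 K)) : ℝ) = Nat.card G * G.index := by
    exact_mod_cast (Subgroup.card_mul_index G).symm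
  refine ⟨h1, ?_, ?_⟩
  · have h7 : (G.index : ℝ) * Nat.card G ≤ t * Nat.card G := by
      calc (G.index : ℝ) * Nat.card G = Nat.card (ClassGroup (𝓞 K)) := by rw [h6]; ring
        _ ≤ t * ((Products K (Above K P) n).ncard : ℝ) := h1
        _ ≤ _ := mul_le_mul_of_nonneg_left h2 ht
    exact le_of_mul_le_mul_right h7 h5
  · intro hP
    have h8 : G = ⊥ := by
      rw [hG, Gen, Subgroup.closure_eq_bot_iff]
      rintro c ⟨J, hJ, rfl⟩
      rw [Set.mem_singleton_iff, ClassGroup.mk0_eq_one_iff]
      exact hP J hJ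
    have h9 : Nat.card G = 1 := by rw [h8]; exact Subgroup.card_bot
    rw [h9] at h2
    calc (Nat.card (ClassGroup (𝓞 K)) : ℝ) ≤ t * ((Products K (Above K P) n).ncard : ℝ) := h1
      _ ≤ t * ((1 : ℕ) : ℝ) := mul_le_mul_of_nonneg_left h2 ht
      _ = t := by rw [Nat.cast_one, mul_one]

/-- For all large `X` and every set `P` of at least `B^c` primes up to `B = (log X)^a`, all but
`X^(1-δ)` of the squarefree `d ≤ X` are good for `P`. -/
theorem result : ∀ a c ε : ℝ, 1 < a → 1 / a < c → c ≤ 1 → 0 < ε → ∃ δ : ℝ, 0 < δ ∧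
    ∃ X₀ : ℕ, ∀ X ≥ X₀, ∀ P : Finset ℕ, (∀ p ∈ P, p.Prime ∧ (p : ℝ) ≤ (Real.log X) ^ a) →
      ((Real.log X) ^ a) ^ c ≤ (P.card : ℝ) →
      (((Finset.Icc 2 X).filter (fun d => Squarefree d ∧
        ¬ Good P ((X : ℝ) ^ (max 0 (1 / 2 + 1 / a - c) + ε))
          (Real.log X / Real.log (Real.log X)) d)).card : ℝ) ≤ (X : ℝ) ^ (1 - δ) := by
  intro a c ε ha hc hc1 hε
  obtain ⟨δ, hδ, X₀, h⟩ := Pool.Agent.W24.NC.mainF a c ha hc hc1 ε hε
  refine ⟨δ, hδ, X₀, fun X hX P hP hPc => le_trans ?_ (h X hX P hP ?_)⟩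
  · have hsub : (Finset.Icc 2 X).filter (fun d => Squarefree d ∧
        ¬ Good P ((X : ℝ) ^ (max 0 (1 / 2 + 1 / a - c) + ε))
          (Real.log X / Real.log (Real.log X)) d) ⊆
        (Finset.Icc 2 X).filter (fun d => Squarefree d ∧
        ¬ Pool.Agent.W24.NC.GoodF P ((X : ℝ) ^ (max 0 (1 / 2 - c + 1 / a) + ε))
          (Real.log X / Real.log (Real.log X)) d) := by
      intro d hd
      rw [Finset.mem_filter] at hd ⊢
      refine ⟨hd.1, hd.2.1, fun hg => hd.2.2 (good_of _ _ _ (by positivity) d ?_)⟩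
      have e : 1 / 2 + 1 / a - c = 1 / 2 - c + 1 / a := by ring
      rw [e]
      exact hg
    exact_mod_cast Finset.card_le_card hsub
  · rw [Real.rpow_mul (Real.log_natCast_nonneg X)]
    exact hPc

end Pool.Agent.Results.MP_321647_nt.ArbitrarySetsOfTinyPrimes
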