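import Pool.Agent.W24.SG.Hec
import Pool.Agent.W24.SG.Rnd
import Pool.Agent.W24.SG.Par2
import Pool.Agent.Y892.UG.V7

/-!
# A spectral gap for the tiny primes, for 100% of the radicands

Let `K` be a real quadratic field with real embeddings `σ`, `τ`. A Hecke character of frequency `θ` is
a homomorphism `χ` from the group of the nonzero ideals to the unit circle with
`χ((x)) = exp(i θ log (σ x / τ x))` for all totally positive integers `x`; those of frequency `0` are
the characters of the narrow class group.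

For every `a > 2`, the following holds for 100% of the squarefree integers `d`, for 100% of the
primes, and for 100% of the radicands which genus theory allows for unique factorisation. There is
`y` with `(log d)^a / 16 ≤ y ≤ (log d)^a / 2` such that, for `K = ℚ(√d)`, the set `T` of the
ideals whose norm is a prime of `(y, 2y]`, `N = #T` and `δ = log log d / log d`:

* `N ≥ (log d)^(a/2)`;
* `|∑_{P ∈ T} χ(P)| ≤ (1 - δ) N` for ALL nontrivial Hecke characters `χ` of frequency `|θ| ≤ π`;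
* if `K` has unique factorisation and `θ ≠ 0`, `|θ| ≤ π`, is such that `θ log |σ u / τ u| ∈ 2πℤ` for
  all units `u`, then `|∑_{P ∈ T} exp(i θ log |σ π_P / τ π_P|)| ≤ (1 - δ) N`, `π_P` a generator of `P`;
* if `A > 0` and `r ≥ A (log d)^2 / log log d`, then for EVERY ideal class `C` the probability that
  `r` independent random members of `T` have product in `C` is within `d^(-A)` of `1/h`;
* if `A > 0` and `r ≥ 2 (A + 1) (log d)^2 / log log d`, then `r` independent random members of `T`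
  generate the class group with probability at least `1 - d^(-A)`; and `K` has unique factorisation
  if and only if they are all principal with probability more than `d^(-A)`.
-/

set_option autoImplicit false

namespace Pool.Agent.Results.MP_321647_nt.SpectralGap

open Filter Finset NumberField
open scoped Classical

/-- The set `T`: the ideals whose norm is a prime number of the interval `(y, 2y]`. -/
def Tiny (K : Type) [Field K] [NumberField K] (y : ℕ) : Type :=
  {P : nonZeroDivisors (Ideal (𝓞 K)) // (Ideal.absNorm (P : Ideal (𝓞 K))).Prime ∧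
    y < Ideal.absNorm (P : Ideal (𝓞 K)) ∧ Ideal.absNorm (P : Ideal (𝓞 K)) ≤ 2 * y}

/-- The exponential `exp(i t)`. -/
noncomputable def ei (t : ℝ) : ℂ := Complex.exp ((t : ℂ) * Complex.I)

/-- `χ` is a Hecke character of frequency `θ`. -/
def IsHecke {K : Type} [Field K] [NumberField K] (σ τ : K →+* ℝ) (θ : ℝ)
    (χ : nonZeroDivisors (Ideal (𝓞 K)) →* Circle) : Prop :=
  ∀ (x : 𝓞 K) (I : nonZeroDivisors (Ideal (𝓞 K))), 0 < σ (x : K) → 0 < τ (x : K) →
    (I : Ideal (𝓞 K)) = Ideal.span {x} →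
    ((χ I : Circle) : ℂ) = ei (θ * Real.log (σ (x : K) / τ (x : K)))

/-- The number `log |σ x / τ x|`. -/
noncomputable def ell {K : Type} [Field K] (σ τ : K →+* ℝ) (x : K) : ℝ :=
  Real.log (|σ x / τ x|)

/-- The bound for the sums of the nontrivial Hecke characters of frequency at most `π`. -/
def Gap (K : Type) [Field K] [NumberField K] (σ τ : K →+* ℝ) (y : ℕ) (δ : ℝ) : Prop :=
  ∀ (θ : ℝ), |θ| ≤ Real.pi → ∀ χ : nonZeroDivisors (Ideal (𝓞 K)) →* Circle,
    IsHecke σ τ θ χ → χ ≠ 1 →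
    ‖∑ᶠ P : Tiny K y, ((χ P.1 : Circle) : ℂ)‖ ≤ (1 - δ) * Nat.card (Tiny K y)

/-- The bound for the angles of the generators of the tiny primes, for unique factorisation. -/
def Angles (K : Type) [Field K] [NumberField K] (σ τ : K →+* ℝ) (y : ℕ) (δ : ℝ) : Prop :=
  UniqueFactorizationMonoid (𝓞 K) → ∀ θ : ℝ, θ ≠ 0 → |θ| ≤ Real.pi →
    (∀ u : (𝓞 K)ˣ, ei (θ * ell σ τ ((u : 𝓞 K) : K)) = 1) →
    ∀ π : Tiny K y → 𝓞 K, (∀ P, ((P.1 : nonZeroDivisors (Ideal (𝓞 K))) : Ideal (𝓞 K)) =
      Ideal.span {π P}) →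
    ‖∑ᶠ P : Tiny K y, ei (θ * ell σ τ (π P : K))‖ ≤ (1 - δ) * Nat.card (Tiny K y)

/-- The product of `r` random members of `T` lies in the class `C` with probability within `ε` of
`1 / h`, for every class `C`. -/
def Equidistributed (K : Type) [Field K] [NumberField K] (y r : ℕ) (ε : ℝ) : Prop :=
  ∀ C : ClassGroup (𝓞 K),
    |(Nat.card {w : Fin r → Tiny K y // ∏ i, ClassGroup.mk0 (w i).1 = C} : ℝ) /
      (Nat.card (Tiny K y) : ℝ) ^ r - 1 / (Nat.card (ClassGroup (𝓞 K)) : ℝ)| ≤ ε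

/-- Random members of `T` do not generate the class group with probability at most `ε`. -/
def Generates (K : Type) [Field K] [NumberField K] (y r : ℕ) (ε : ℝ) : Prop :=
  (Nat.card {w : Fin r → Tiny K y //
    Subgroup.closure (Set.range fun i => ClassGroup.mk0 (w i).1) ≠ ⊤} : ℝ) ≤
    ε * (Nat.card (Tiny K y) : ℝ) ^ r

/-- Unique factorisation holds if and only if random members of `T` are all principal with
probability more than `ε`. -/
def Decides (K : Type) [Field K] [NumberField K] (y r : ℕ) (ε : ℝ) : Prop :=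
  UniqueFactorizationMonoid (𝓞 K) ↔ ε * (Nat.card (Tiny K y) : ℝ) ^ r <
    (Nat.card {w : Fin r → Tiny K y // ∀ i,
      (((w i).1 : nonZeroDivisors (Ideal (𝓞 K))) : Ideal (𝓞 K)).IsPrincipal} : ℝ)

/-- The property of the integer `d` in the theorem. -/
def Good (a : ℝ) (d : ℕ) : Prop :=
  ∀ (K : Type) [Field K] [NumberField K], Module.finrank ℚ K = 2 → (∃ x : K, x ^ 2 = (d : K)) →
    ∀ σ τ : K →+* ℝ, σ ≠ τ →
    ∃ y : ℕ, (Real.log d) ^ a ≤ 16 * (y : ℝ) ∧ 2 * (y : ℝ) ≤ (Real.log d) ^ a ∧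
      (Real.log d) ^ (a / 2) ≤ (Nat.card (Tiny K y) : ℝ) ∧
      Gap K σ τ y (Real.log (Real.log d) / Real.log d) ∧
      Angles K σ τ y (Real.log (Real.log d) / Real.log d) ∧
      ∀ (A : ℝ) (r : ℕ), 0 < A →
        (A * (Real.log d) ^ 2 / Real.log (Real.log d) ≤ r →
          Equidistributed K y r ((d : ℝ) ^ (-A))) ∧
        (2 * (A + 1) * (Real.log d) ^ 2 / Real.log (Real.log d) ≤ r →
          Generates K y r ((d : ℝ) ^ (-A)) ∧ Decides K y r ((d : ℝ) ^ (-A)))

/-- `d = 2 p` with a prime `p ≡ 3 mod 4`. -/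
def TwicePrime (d : ℕ) : Prop := ∃ p : ℕ, p.Prime ∧ p % 4 = 3 ∧ d = 2 * p

/-- `d = p q` with two different primes `p ≡ q ≡ 3 mod 4`. -/
def PrimePair (d : ℕ) : Prop :=
  ∃ p q : ℕ, p.Prime ∧ q.Prime ∧ p < q ∧ p % 4 = 3 ∧ q % 4 = 3 ∧ d = p * q

/-- The radicands that can have unique factorisation. -/
def Candidate (d : ℕ) : Prop := d.Prime ∨ TwicePrime d ∨ PrimePair d

/-- The proportion of the numbers up to `X` with the property `F` that do not have the property `G`
tends to zero as `X` tends to infinity. -/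
def AlmostAll (F G : ℕ → Prop) : Prop :=
  Tendsto (fun X : ℕ => (((Finset.Icc 1 X).filter (fun d => F d ∧ ¬ G d)).card : ℝ) /
    (((Finset.Icc 1 X).filter F).card : ℝ)) atTop (nhds 0)

open Pool.Agent.H38R2.CG Pool.Agent.H38R2.CG2 Pool.Agent.H38R2.CG3 Pool.Agent.H951R5.AR
open Pool.Agent.H38R2.CG.NFh Pool.Agent.W24.SG Pool.Agent.H38R2.CG.FINh Pool.Agent.Y892.UF

section field

variable {K : Type} [Field K] [NumberField K] {D : ℕ}

/-- the members of `T` as a finite set of ideals -/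
noncomputable def TF (K : Type) [Field K] [NumberField K] (y : ℕ) : Finset (Ideal (𝓞 K)) :=
  (PP y).biUnion (fun p => Pool.Agent.H38R2.CG.NFh.U K p)

theorem mem_TF {y : ℕ} {I : Ideal (𝓞 K)} : I ∈ TF K y ↔ (Ideal.absNorm I).Prime ∧
    y < Ideal.absNorm I ∧ Ideal.absNorm I ≤ 2 * y := by
  unfold TF
  rw [Finset.mem_biUnion]
  constructor
  · rintro ⟨p, hp, hI⟩
    rw [mem_U] at hI
    simp only [PP, mem_filter, mem_Ioc] at hp
    rw [hI]
    exact ⟨hp.2, hp.1.1, hp.1.2⟩
  · rintro ⟨h1, h2, h3⟩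
    refine ⟨Ideal.absNorm I, ?_, mem_U.2 rfl⟩
    simp only [PP, mem_filter, mem_Ioc]
    exact ⟨⟨h2, h3⟩, h1⟩

/-- the two descriptions of `T` -/
noncomputable def eqT (K : Type) [Field K] [NumberField K] (y : ℕ) :
    Tiny K y ≃ {I : Ideal (𝓞 K) // I ∈ TF K y} where
  toFun P := ⟨(P.1 : Ideal (𝓞 K)), mem_TF.2 P.2⟩
  invFun I := ⟨⟨I.1, by
    have h := (mem_TF.1 I.2).1
    rw [← Ideal.absNorm_ne_zero_iff_mem_nonZeroDivisors]
    exact h.ne_zero⟩, mem_TF.1 I.2⟩
  left_inv _ := rfl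
  right_inv _ := rfl

noncomputable instance (y : ℕ) : Fintype (Tiny K y) := Fintype.ofEquiv _ (eqT K y).symm

theorem sum_TF {M : Type} [AddCommMonoid M] (y : ℕ) (f : Ideal (𝓞 K) → M) :
    ∑ I ∈ TF K y, f I = ∑ p ∈ PP y, ∑ I ∈ Pool.Agent.H38R2.CG.NFh.U K p, f I := by
  unfold TF
  rw [Finset.sum_biUnion]
  intro p _ q _ hpq
  rw [Function.onFun, Finset.disjoint_left]
  intro I hI hI'
  rw [mem_U] at hI hI'
  exact hpq (hI.symm.trans hI')

theorem card_Tiny (y : ℕ) : (Fintype.card (Tiny K y) : ℝ) = Nn K y := by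
  have h1 : Fintype.card (Tiny K y) = (TF K y).card := by
    rw [Fintype.card_congr (eqT K y), Fintype.card_coe]
  have h2 := sum_TF (K := K) y (fun _ => (1 : ℝ))
  rw [Finset.sum_const, nsmul_eq_mul, mul_one] at h2
  rw [h1, h2]
  unfold Nn
  refine Finset.sum_congr rfl fun p _ => ?_
  rw [Finset.sum_const, nsmul_eq_mul, mul_one]

theorem ncard_Tiny (y : ℕ) : (Nat.card (Tiny K y) : ℝ) = Nn K y := by
  rw [Nat.card_eq_fintype_card, card_Tiny]

/-- the character sum over `T` -/
theorem sum_Tiny (χ : nonZeroDivisors (Ideal (𝓞 K)) →* Circle) (y : ℕ) :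
    ∑ P : Tiny K y, ((χ P.1 : Circle) : ℂ) =
      ∑ p ∈ PP y, ∑ I ∈ Pool.Agent.H38R2.CG.NFh.U K p, ex χ I := by
  rw [← sum_TF y (ex χ), ← Finset.sum_coe_sort (TF K y) (ex χ)]
  refine Fintype.sum_equiv (eqT K y) _ _ fun P => ?_
  exact (ex_coe χ P.1).symm

/-- the spectral gap for the set `T` -/
theorem gap_Tiny (hD : IsFund D) (h2 : Module.finrank ℚ K = 2)
    (hK : NumberField.discr K = (D : ℤ)) (e : Emb K D)
    {y k : ℕ} (hy : 2 ≤ y) (hk : 1 ≤ k) (θ : ℝ) (hθ : |θ| ≤ Real.pi)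
    (χ : nonZeroDivisors (Ideal (𝓞 K)) →* Circle) (hχ : Hk e θ χ) (hne : χ ≠ 1)
    (hnb : 2 * √(D : ℝ) * Lone D * SD D ((PP y).powersetCard k) (fun _ => 1) <
      (1 + 1 / 50) * (MD D ((PP y).powersetCard k) (fun _ => 1)) ^ 2)
    (hNk : 6 * (k : ℝ) ≤ Nn K y) :
    ‖∑ P : Tiny K y, ((χ P.1 : Circle) : ℂ)‖ ≤ (1 - 1 / (2 * (k : ℝ))) * Nn K y := by
  have h := gap T_KF N4_true (T_N5b T_KF N4_true) (T_N1 (T_SPL T_N0)) N3_true (T_N6 T_KF) hD h2 hK e
    hy hk θ hθ χ hχ hne hnb hNk
  rw [sum_Tiny]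
  have h3 : ∑ p ∈ PP y, ∑ I ∈ Pool.Agent.H38R2.CG.NFh.U K p, ex χ I = ((Lam χ y : ℝ) : ℂ) := by
    unfold Lam
    push_cast
    refine Finset.sum_congr rfl fun p hp => ?_
    exact cc_eq e h2 θ χ hχ (PP_prime hy hp).1.ne_zero
  rw [h3, Complex.norm_real, Real.norm_eq_abs]
  exact h

theorem coe_mul' (x y : 𝓞 K) : ((x * y : 𝓞 K) : K) = (x : K) * (y : K) := rfl

theorem ell_mul (σ τ : K →+* ℝ) {x y : K} (hx : x ≠ 0) (hy : y ≠ 0) :
    ell σ τ (x * y) = ell σ τ x + ell σ τ y := by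
  have h1 : ∀ (f : K →+* ℝ) {z : K}, z ≠ 0 → f z ≠ 0 := fun f z hz => (map_ne_zero f).2 hz
  unfold ell
  have hx1 : |σ x / τ x| ≠ 0 := abs_ne_zero.2 (div_ne_zero (h1 σ hx) (h1 τ hx))
  have hy1 : |σ y / τ y| ≠ 0 := abs_ne_zero.2 (div_ne_zero (h1 σ hy) (h1 τ hy))
  rw [← Real.log_mul hx1 hy1, ← abs_mul, map_mul, map_mul]
  congr 2
  have := h1 τ hx
  have := h1 τ hy
  field_simp

theorem ei_add (s t : ℝ) : ei (s + t) = ei s * ei t := by
  unfold ei
  rw [← Complex.exp_add]
  congr 1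
  push_cast
  ring

theorem ei_E (θ u : ℝ) : ei (θ * u) = E θ u := rfl

/-- the Hecke character of a field with unique factorisation -/
theorem exists_char_ufd (σ τ : K →+* ℝ) (hU : UniqueFactorizationMonoid (𝓞 K)) (θ : ℝ)
    (hu : ∀ u : (𝓞 K)ˣ, ei (θ * ell σ τ ((u : 𝓞 K) : K)) = 1) :
    ∃ χ : nonZeroDivisors (Ideal (𝓞 K)) →* Circle, ∀ (x : 𝓞 K)
      (I : nonZeroDivisors (Ideal (𝓞 K))), (I : Ideal (𝓞 K)) = Ideal.span {x} →
      ((χ I : Circle) : ℂ) = ei (θ * ell σ τ (x : K)) := by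
  have hP : IsPrincipalIdealRing (𝓞 K) :=
    IsPrincipalIdealRing.of_isDedekindDomain_of_uniqueFactorizationMonoid (𝓞 K)
  have hgen : ∀ I : nonZeroDivisors (Ideal (𝓞 K)), ∃ g : 𝓞 K,
      (I : Ideal (𝓞 K)) = Ideal.span {g} := fun I => (IsPrincipalIdealRing.principal _).principal
  choose g hg using hgen
  have hg0 : ∀ I, g I ≠ 0 := by
    intro I h
    have h1 := hg I
    rw [h, Ideal.span_singleton_eq_bot.2 rfl] at h1
    exact nonZeroDivisors.coe_ne_zero I h1
  have hgK : ∀ {x : 𝓞 K}, x ≠ 0 → (x : K) ≠ 0 := by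
    intro x hx h
    exact hx (by exact_mod_cast h)
  -- the value does not depend on the generator
  have hval : ∀ (x z : 𝓞 K), x ≠ 0 → Ideal.span {x} = Ideal.span {z} →
      ei (θ * ell σ τ (x : K)) = ei (θ * ell σ τ (z : K)) := by
    intro x z hx hxz
    rw [Ideal.span_singleton_eq_span_singleton] at hxz
    obtain ⟨u, hu'⟩ := hxz
    have h1 : (z : K) = (x : K) * ((u : 𝓞 K) : K) := by
      rw [← hu']
      rfl
    rw [h1, ell_mul σ τ (hgK hx) (NumberField.Units.coe_ne_zero u), mul_add, ei_add, hu u, mul_one]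
  let χ0 : nonZeroDivisors (Ideal (𝓞 K)) → Circle := fun I =>
    Circle.exp (θ * ell σ τ (g I : K))
  have hχ0 : ∀ I, ((χ0 I : Circle) : ℂ) = ei (θ * ell σ τ (g I : K)) := fun I => Circle.coe_exp _
  have hχx : ∀ (x : 𝓞 K) (I : nonZeroDivisors (Ideal (𝓞 K))),
      (I : Ideal (𝓞 K)) = Ideal.span {x} → ((χ0 I : Circle) : ℂ) = ei (θ * ell σ τ (x : K)) := by
    intro x I hI
    rw [hχ0]
    exact hval _ _ (hg0 I) ((hg I).symm.trans hI)
  refine ⟨{ toFun := χ0, map_one' := ?_, map_mul' := ?_ }, hχx⟩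
  · apply Circle.ext
    have h1 := hχx 1 1 (by rw [Ideal.span_singleton_one]; exact Ideal.one_eq_top)
    rw [h1, Circle.coe_one]
    have h2 := hu 1
    rwa [Units.val_one] at h2
  · intro I J
    apply Circle.ext
    rw [Circle.coe_mul, hχ0 I, hχ0 J, ← ei_add, ← mul_add,
      ← ell_mul σ τ (hgK (hg0 I)) (hgK (hg0 J)), ← coe_mul']
    apply hχx
    rw [← Ideal.span_singleton_mul_span_singleton, ← hg I, ← hg J]
    rfl

/-- the characters of the class group -/
noncomputable def clChar (ψ : AddChar (Additive (ClassGroup (𝓞 K))) ℂ) :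
    nonZeroDivisors (Ideal (𝓞 K)) →* Circle where
  toFun I := (AddChar.circleEquivComplex.symm ψ) (Additive.ofMul (ClassGroup.mk0 I))
  map_one' := by
    rw [map_one, ofMul_one, AddChar.map_zero_eq_one]
  map_mul' I J := by
    rw [map_mul, ofMul_mul, AddChar.map_add_eq_mul]

theorem clChar_coe (ψ : AddChar (Additive (ClassGroup (𝓞 K))) ℂ)
    (I : nonZeroDivisors (Ideal (𝓞 K))) :
    ((clChar ψ I : Circle) : ℂ) = ψ (Additive.ofMul (ClassGroup.mk0 I)) := by
  rfl

end field

/-- everything, for one discriminant -/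
theorem good_of (a : ℝ) (ha : 2 < a) : ∃ X1 : ℕ, ∀ X : ℕ, X1 ≤ X → ∀ d : ℕ, 1 < d →
    Squarefree d → X < Dof d → Dof d ≤ 2 * X → ¬ Bd a (1 / 50) X (Dof d) → Good a d := by
  obtain ⟨X1, hX1⟩ := params a ha
  obtain ⟨X2, hX2⟩ := params2 a ha
  obtain ⟨D0, hD0⟩ := h_small (T_N3a T_KR T_PV)
  refine ⟨max (max X1 X2) (max D0 400), fun X hX d hd1 hds hXD hDX hb => ?_⟩
  have hXa : X1 ≤ X := (le_max_left _ _).trans ((le_max_left _ _).trans hX)
  have hXb : X2 ≤ X := (le_max_right _ _).trans ((le_max_left _ _).trans hX)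
  have hXc : D0 ≤ X := (le_max_left _ _).trans ((le_max_right _ _).trans hX)
  have hXd : 400 ≤ X := (le_max_right _ _).trans ((le_max_right _ _).trans hX)
  have hfund := isFund_Dof hd1 hds
  have hD12 : 12 < Dof d := by omega
  have hD4 : Dof d ≤ 4 * d := by
    unfold Dof
    split_ifs <;> omega
  have hd4 : (X : ℝ) / 4 ≤ d := by
    have h1 : X < 4 * d := lt_of_lt_of_le hXD (Dof_le d)
    have h2 : (X : ℝ) < 4 * d := by exact_mod_cast h1
    linarith
  have hd2 : (d : ℝ) ≤ 2 * X := by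
    have h1 : d ≤ 2 * X := (le_Dof d).trans hDX
    exact_mod_cast h1
  obtain ⟨hy, hk, hy2⟩ := hX1 X hXa d hd4 hd2
  obtain ⟨hk1, hPk, hP108, hPka, hylow⟩ := hX2 X hXb d hd4 hd2
  intro K iF iN hrank hx σ τ hne
  have hdisc : NumberField.discr K = ((Dof d : ℕ) : ℤ) := by
    rw [T_N0d K d hd1 hds hrank hx]
    unfold Dof
    split_ifs <;> simp
  obtain ⟨e⟩ := T_N0 K (Dof d) hfund hrank hdisc
  have hnb : 2 * √((Dof d : ℕ) : ℝ) * Lone (Dof d) *
      SD (Dof d) ((PP (yA a X)).powersetCard (kA a X)) (fun _ => 1) <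
      (1 + 1 / 50) * (MD (Dof d) ((PP (yA a X)).powersetCard (kA a X)) (fun _ => 1)) ^ 2 := by
    unfold Bd at hb
    push Not at hb
    exact hb
  -- number of elements
  have hNlow := N_low (K := K) T_N0 (T_N1 (T_SPL T_N0))
    (T_N5 N3_true N4_true (T_N5a T_KF) (T_N5b T_KF N4_true)) (T_N6 T_KF) N3_true hfund hD12
    hrank hdisc hy2 hk1 hPk hnb
  have hN0 : 0 ≤ Nn K (yA a X) := Finset.sum_nonneg fun p _ => Nat.cast_nonneg _
  have hkr : (1 : ℝ) ≤ kA a X := by exact_mod_cast hk1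
  have hNk : 6 * (kA a X : ℝ) ≤ Nn K (yA a X) := by
    refine (sq_le_sq₀ (by linarith) hN0).1 ?_
    nlinarith
  have hlogd : 0 < Real.log d := by
    apply Real.log_pos
    exact_mod_cast hd1
  have hd100 : (100 : ℝ) ≤ d := by
    have : (400 : ℝ) ≤ X := by exact_mod_cast hXd
    linarith
  have hlogd4 : 4 ≤ Real.log d := by
    rw [Real.le_log_iff_exp_le (by linarith)]
    have h1 : Real.exp 4 = (Real.exp 1) ^ 4 := by
      rw [← Real.exp_nat_mul]
      norm_num
    have h2 := Real.exp_one_lt_d9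
    have h3 := Real.exp_pos 1
    rw [h1]
    calc (Real.exp 1) ^ 4 ≤ (2.72 : ℝ) ^ 4 := pow_le_pow_left₀ h3.le (by linarith) 4
      _ ≤ 100 := by norm_num
      _ ≤ d := hd100
  have hll : 0 < Real.log (Real.log d) := Real.log_pos (by linarith)
  have hll1 : Real.log (Real.log d) < Real.log d := by
    have := Real.log_le_sub_one_of_pos hlogd
    linarith
  set δ : ℝ := Real.log (Real.log d) / Real.log d with hδ
  have hδ0 : 0 < δ := div_pos hll hlogd
  have hδ1 : δ < 1 := by rw [hδ, div_lt_one hlogd]; exact hll1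
  have hkδ : 1 - 1 / (2 * (kA a X : ℝ)) ≤ 1 - δ := by
    have h1 : δ ≤ 1 / (2 * (kA a X : ℝ)) := by
      rw [hδ, div_le_div_iff₀ hlogd (by linarith), one_mul, mul_comm]
      rw [le_div_iff₀ hll] at hk
      exact hk
    linarith
  have hNpos : 0 < Nn K (yA a X) := by linarith
  -- the gap in terms of `e`
  have hgap : ∀ (θ : ℝ), |θ| ≤ Real.pi → ∀ χ : nonZeroDivisors (Ideal (𝓞 K)) →* Circle,
      Hk e θ χ → χ ≠ 1 → ‖∑ P : Tiny K (yA a X), ((χ P.1 : Circle) : ℂ)‖ ≤
        (1 - δ) * Nn K (yA a X) := by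
    intro θ hθ χ hχ hne'
    refine (gap_Tiny hfund hrank hdisc e hy2 hk1 θ hθ χ hχ hne' hnb hNk).trans ?_
    exact mul_le_mul_of_nonneg_right hkδ hN0
  -- the two orders of the embeddings
  have hGap : Gap K σ τ (yA a X) δ := by
    intro θ hθ χ hχ hne'
    rw [finsum_eq_sum_of_fintype, ncard_Tiny]
    have hcase : (σ = e.σ ∧ τ = e.τ) ∨ (σ = e.τ ∧ τ = e.σ) := by
      rcases emb_two hrank e.σ e.τ σ e.ne with h3 | h3
      · rcases emb_two hrank e.σ e.τ τ e.ne with h4 | h4
        · exact absurd (h3.trans h4.symm) hne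
        · exact Or.inl ⟨h3, h4⟩
      · rcases emb_two hrank e.σ e.τ τ e.ne with h4 | h4
        · exact Or.inr ⟨h3, h4⟩
        · exact absurd (h3.trans h4.symm) hne
    rcases hcase with ⟨rfl, rfl⟩ | ⟨rfl, rfl⟩
    · refine hgap θ hθ χ (hk_of e θ χ ?_) hne'
      intro x I h3 h4 hI
      exact hχ x I h3 h4 hI
    · refine hgap (-θ) (by rw [abs_neg]; exact hθ) χ (hk_of e (-θ) χ ?_) hne'
      intro x I h3 h4 hI
      rw [hχ x I h4 h3 hI, ← ei_E]
      congr 1
      unfold ar
      have h5 : e.τ (x : K) / e.σ (x : K) = (e.σ (x : K) / e.τ (x : K))⁻¹ := by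
        rw [inv_div]
      rw [h5, Real.log_inv]
      ring
  refine ⟨yA a X, hylow, hy, ?_, hGap, ?_, ?_⟩
  · rw [ncard_Tiny]
    refine (sq_le_sq₀ (by positivity) hN0).1 ?_
    have h1 : ((Real.log d) ^ (a / 2)) ^ 2 = (Real.log d) ^ a := by
      rw [← Real.rpow_natCast, ← Real.rpow_mul hlogd.le]
      congr 1
      push_cast
      ring
    rw [h1]
    linarith
  · intro hU θ hθ0 hθ hu π hπ
    obtain ⟨χ, hχ⟩ := exists_char_ufd σ τ hU θ hu
    have hH : IsHecke σ τ θ χ := by
      intro x I h3 h4 hI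
      rw [hχ x I hI]
      unfold ell
      rw [abs_of_pos (div_pos h3 h4)]
    have hne1 : χ ≠ 1 := by
      intro h1
      obtain ⟨x, q1, q2, q3, q4⟩ := exists_small hfund e
      have hx0 : x ≠ 0 := by
        rintro rfl
        simp at q1
      have hm : Ideal.span {x} ∈ nonZeroDivisors (Ideal (𝓞 K)) :=
        mem_nonZeroDivisors_of_ne_zero (by
          rw [Ne, Ideal.zero_eq_bot, Ideal.span_singleton_eq_bot]; exact hx0)
      have h5 := hχ x ⟨_, hm⟩ rfl
      rw [h1, MonoidHom.one_apply, Circle.coe_one] at h5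
      have habs : |ell σ τ (x : K)| = ar e (x : K) := by
        rcases emb_two hrank e.σ e.τ σ e.ne with h3 | h3
        · rcases emb_two hrank e.σ e.τ τ e.ne with h4 | h4
          · exact absurd (h3.trans h4.symm) hne
          · unfold ell
            rw [h3, h4, abs_of_pos (div_pos q1 q2)]
            exact abs_of_pos q3
        · rcases emb_two hrank e.σ e.τ τ e.ne with h4 | h4
          · unfold ell
            rw [h3, h4, abs_of_pos (div_pos q2 q1)]
            have h6 : e.τ (x : K) / e.σ (x : K) = (e.σ (x : K) / e.τ (x : K))⁻¹ := by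
              rw [inv_div]
            rw [h6, Real.log_inv, abs_neg]
            exact abs_of_pos q3
          · exact absurd (h3.trans h4.symm) hne
      have h7 : ell σ τ (x : K) ≠ 0 := by
        intro h0
        rw [h0, abs_zero] at habs
        linarith
      exact E_ne_one θ _ hθ0 hθ h7 (by rw [habs]; exact q4) h5.symm
    have h8 := hGap θ hθ χ hH hne1
    have h9 : (fun P : Tiny K (yA a X) => ei (θ * ell σ τ (π P : K))) =
        fun P : Tiny K (yA a X) => ((χ P.1 : Circle) : ℂ) := by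
      funext P
      exact (hχ (π P) P.1 (hπ P)).symm
    rw [h9]
    exact h8
  · -- random products
    have hcl : ∀ ψ : AddChar (Additive (ClassGroup (𝓞 K))) ℂ, ψ ≠ 0 →
        ‖lam (fun P : Tiny K (yA a X) => ClassGroup.mk0 P.1) ψ‖ ≤
          (1 - δ) * Fintype.card (Tiny K (yA a X)) := by
      intro ψ hψ
      have h3 : Hk e 0 (clChar ψ) := by
        intro A B x hx
        rw [clChar_coe, clChar_coe, N5ah.class_XAB e hx]
        unfold E
        simp
      have h4 : clChar ψ ≠ 1 := by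
        intro h1
        apply hψ
        ext C
        obtain ⟨I, hI⟩ := ClassGroup.mk0_surjective (Additive.toMul C)
        have h5 := clChar_coe ψ I
        rw [h1, MonoidHom.one_apply, Circle.coe_one, hI] at h5
        rw [AddChar.zero_apply]
        exact h5.symm
      have h5 := hgap 0 (by rw [abs_zero]; exact Real.pi_pos.le) _ h3 h4
      rw [card_Tiny]
      exact h5
    have hcardpos : 0 < Fintype.card (Tiny K (yA a X)) := by
      have h3 : (0 : ℝ) < Fintype.card (Tiny K (yA a X)) := by rw [card_Tiny]; exact hNpos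
      exact_mod_cast h3
    have hNc : (Nat.card (Tiny K (yA a X)) : ℝ) = Fintype.card (Tiny K (yA a X)) := by
      rw [Nat.card_eq_fintype_card]
    have hdr : (0 : ℝ) < d := by linarith
    -- powers
    have hpow : ∀ (c B : ℝ) (r : ℕ), 0 < c → c * δ ≤ 1 → B * (Real.log d) ^ 2 /
        Real.log (Real.log d) ≤ r → (1 - c * δ) ^ r ≤ (d : ℝ) ^ (-(c * B)) := by
      intro c B r hc hcδ hr
      have h3 : (1 - c * δ) ^ r ≤ (Real.exp (-(c * δ))) ^ r := by
        apply pow_le_pow_left₀ (by linarith)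
        have := Real.add_one_le_exp (-(c * δ))
        linarith
      refine h3.trans ?_
      rw [← Real.exp_nat_mul, Real.rpow_def_of_pos hdr, Real.exp_le_exp]
      have h5 : B * Real.log d ≤ r * δ := by
        rw [div_le_iff₀ hll] at hr
        rw [hδ, ← mul_div_assoc, le_div_iff₀ hlogd]
        nlinarith
      nlinarith
    intro A r hA
    have hclass : (Nat.card (ClassGroup (𝓞 K)) : ℝ) = Fintype.card (ClassGroup (𝓞 K)) := by
      rw [Nat.card_eq_fintype_card]
    refine ⟨fun hr C => ?_, fun hr => ?_⟩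
    · have h3 := equi (fun P : Tiny K (yA a X) => ClassGroup.mk0 P.1) (1 - δ) (by linarith)
        hcardpos hcl r C
      have h5 : (Nat.card {w : Fin r → Tiny K (yA a X) // ∏ i, ClassGroup.mk0 (w i).1 = C}) =
          ((Finset.univ : Finset (Fin r → Tiny K (yA a X))).filter
            (fun w => ∏ i, ClassGroup.mk0 (w i).1 = C)).card := by
        refine Nat.subtype_card _ fun w => ?_
        rw [Finset.mem_filter]
        exact ⟨fun h => h.2, fun h => ⟨Finset.mem_univ _, h⟩⟩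
      rw [h5, hNc, hclass]
      refine h3.trans ?_
      have h6 := hpow 1 A r one_pos (by linarith) hr
      rwa [one_mul, one_mul] at h6
    · have hgen : Generates K (yA a X) r ((d : ℝ) ^ (-A)) := by
        unfold Generates
        have h3 := nongen (fun P : Tiny K (yA a X) => ClassGroup.mk0 P.1) (1 - δ) (by linarith)
          hcl r
        have h5 : (Nat.card {w : Fin r → Tiny K (yA a X) //
            Subgroup.closure (Set.range fun i => ClassGroup.mk0 (w i).1) ≠ ⊤}) =
            ((Finset.univ : Finset (Fin r → Tiny K (yA a X))).filter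
              (fun w => Subgroup.closure (Set.range fun i => ClassGroup.mk0 (w i).1) ≠ ⊤)).card := by
          refine Nat.subtype_card _ fun w => ?_
          rw [Finset.mem_filter]
          exact ⟨fun h => h.2, fun h => ⟨Finset.mem_univ _, h⟩⟩
        rw [h5, hNc]
        refine h3.trans ?_
        have h6 : (Fintype.card (ClassGroup (𝓞 K)) : ℝ) ≤ d := by
          rw [← hclass]
          have h7 := h_le (K := K) T_N0 (T_N1 (T_SPL T_N0)) N3_true N4_true T_KF
            (T_N5b T_KF N4_true) (T_N6 T_KF) hfund hD12 hrank hdisc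
          have h8 := hD0 (Dof d) (by omega) hfund
          have h9 : ((Dof d : ℕ) : ℝ) ≤ 4 * d := by exact_mod_cast hD4
          linarith
        have h7 : (1 + (1 - δ)) / 2 = 1 - 1 / 2 * δ := by ring
        have h8 := hpow (1 / 2) (2 * (A + 1)) r (by norm_num) (by linarith) hr
        have h9 : (1 / 2 * (2 * (A + 1))) = A + 1 := by ring
        rw [h9] at h8
        rw [h7, mul_pow, ← mul_assoc]
        apply mul_le_mul_of_nonneg_right _ (by positivity)
        calc (Fintype.card (ClassGroup (𝓞 K)) : ℝ) * (1 - 1 / 2 * δ) ^ r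
            ≤ d * (d : ℝ) ^ (-(A + 1)) := by
              apply mul_le_mul h6 h8 _ hdr.le
              apply pow_nonneg
              linarith
          _ = (d : ℝ) ^ (-A) := by
              nth_rewrite 1 [← Real.rpow_one (d : ℝ)]
              rw [← Real.rpow_add hdr]
              congr 1
              ring
      refine ⟨hgen, ?_⟩
      unfold Decides
      constructor
      · intro hU
        have hP : IsPrincipalIdealRing (𝓞 K) :=
          IsPrincipalIdealRing.of_isDedekindDomain_of_uniqueFactorizationMonoid (𝓞 K)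
        have h3 : (Nat.card {w : Fin r → Tiny K (yA a X) // ∀ i,
            (((w i).1 : nonZeroDivisors (Ideal (𝓞 K))) : Ideal (𝓞 K)).IsPrincipal}) =
            Nat.card (Fin r → Tiny K (yA a X)) := by
          refine Nat.card_congr (Equiv.subtypeUnivEquiv fun w i => ?_)
          exact IsPrincipalIdealRing.principal _
        have h5 : (Nat.card (Fin r → Tiny K (yA a X)) : ℝ) =
            (Nat.card (Tiny K (yA a X)) : ℝ) ^ r := by
          rw [Nat.card_fun, Nat.card_eq_fintype_card (α := Fin r), Fintype.card_fin]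
          push_cast
          rfl
        rw [h3, h5, ncard_Tiny]
        have h6 : (d : ℝ) ^ (-A) < 1 := Real.rpow_lt_one_of_one_lt_of_neg (by linarith) (by linarith)
        have h7 : 0 < Nn K (yA a X) ^ r := by positivity
        nlinarith
      · intro h
        by_contra hU
        apply absurd h
        push Not
        refine le_trans ?_ hgen
        have hfin : Finite {w : Fin r → Tiny K (yA a X) //
            Subgroup.closure (Set.range fun i => ClassGroup.mk0 (w i).1) ≠ ⊤} :=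
          Subtype.finite
        have hle : Nat.card {w : Fin r → Tiny K (yA a X) // ∀ i,
            (((w i).1 : nonZeroDivisors (Ideal (𝓞 K))) : Ideal (𝓞 K)).IsPrincipal} ≤
            Nat.card {w : Fin r → Tiny K (yA a X) //
            Subgroup.closure (Set.range fun i => ClassGroup.mk0 (w i).1) ≠ ⊤} := by
          refine Nat.card_le_card_of_injective (fun w => ⟨w.1, ?_⟩) ?_
          · intro htop
            apply hU
            have h3 : Subgroup.closure (Set.range fun i => ClassGroup.mk0 (w.1 i).1) = ⊥ := by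
              rw [Subgroup.closure_eq_bot_iff]
              rintro _ ⟨i, rfl⟩
              rw [Set.mem_singleton_iff]
              exact (ClassGroup.mk0_eq_one_iff (w.1 i).1.2).2 (w.2 i)
            rw [htop] at h3
            have hcard : Fintype.card (ClassGroup (𝓞 K)) = 1 := by
              rw [Fintype.card_eq_one_iff]
              refine ⟨1, fun C => ?_⟩
              have h5 : C ∈ (⊤ : Subgroup (ClassGroup (𝓞 K))) := Subgroup.mem_top C
              rw [h3] at h5
              exact Subgroup.mem_bot.1 h5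
            have : IsPrincipalIdealRing (𝓞 K) := by
              rw [← card_classGroup_eq_one_iff]
              exact hcard
            infer_instance
          · intro w w' hww
            apply Subtype.ext
            simpa using hww
        exact_mod_cast hle

/-- exceptional radicands have exceptional discriminants -/
theorem excBd_good (a : ℝ) (ha : 2 < a) :
    Pool.Agent.Y892.UG.ExcBd a (1 / 50) (fun d => ¬ Good a d) := by
  obtain ⟨X1, hX1⟩ := good_of a ha
  refine ⟨X1, fun X hX d hd1 hds hg hXD hDX => ⟨isFund_Dof hd1 hds, ?_⟩⟩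
  by_contra hb
  exact hg (hX1 X hX d hd1 hds hXD hDX hb)

theorem semi_good (a : ℝ) (ha : 2 < a) :
    Tendsto (fun X : ℕ => (((Finset.Ioc 0 X).filter (fun D => Semi D ∧ ¬ Good a D)).card : ℝ) /
      (((Finset.Ioc 0 X).filter Semi).card : ℝ)) atTop (nhds 0) := by
  have h := Pool.Agent.Y892.UG.semi_tendsto BH_true T2_RC AS0_true a ha (1 / 50) (by norm_num)
    (fun d => ¬ Good a d) (excBd_good a ha)
  convert h

theorem two_good (a : ℝ) (ha : 2 < a) :
    Tendsto (fun X : ℕ => (((Finset.Ioc 0 X).filter (fun D => Two D ∧ ¬ Good a D)).card : ℝ) /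
      (((Finset.Ioc 0 X).filter Two).card : ℝ)) atTop (nhds 0) := by
  have h := Pool.Agent.Y892.UG.two_tendsto BH_true T2_RC AS0_true a ha (1 / 50) (by norm_num)
    (fun d => ¬ Good a d) (excBd_good a ha)
  convert h

theorem short_le (X : ℕ) (η : ℝ) (hη1 : η ≤ 1) (D : ℕ) (hD : D ∈ Finset.Ioc X ⌊(1 + η) * (X : ℝ)⌋₊) :
    D ≤ 2 * X := by
  have h1 := (Finset.mem_Ioc.1 hD).2
  have hX : (0 : ℝ) ≤ X := Nat.cast_nonneg _
  by_cases h0 : 0 ≤ (1 + η) * (X : ℝ)
  · have h2 : ((⌊(1 + η) * (X : ℝ)⌋₊ : ℕ) : ℝ) ≤ (1 + η) * (X : ℝ) := Nat.floor_le h0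
    have h3 : (D : ℝ) ≤ (⌊(1 + η) * (X : ℝ)⌋₊ : ℝ) := by exact_mod_cast h1
    have h5 : (D : ℝ) ≤ 2 * (X : ℝ) := by nlinarith
    exact_mod_cast h5
  · push Not at h0
    have h2 : ⌊(1 + η) * (X : ℝ)⌋₊ = 0 := Nat.floor_of_nonpos h0.le
    omega

/-- all squarefree integers -/
theorem sqf_good (a : ℝ) (ha : 2 < a) :
    Tendsto (fun X : ℕ => (((Finset.Icc 2 X).filter
      (fun d => Squarefree d ∧ ¬ Good a d)).card : ℝ) / X) atTop (nhds 0) := by
  suffices hs : ∀ δ : ℝ, 0 < δ → ∃ η : ℝ, 0 < η ∧ η ≤ 1 ∧ ∃ X0 : ℕ, ∀ X ≥ X0,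
      (((Finset.Ioc X ⌊(1 + η) * (X : ℝ)⌋₊).filter
        (fun D => ∃ d : ℕ, 1 < d ∧ Squarefree d ∧ ¬ Good a d ∧ D = Dof d)).card : ℝ) ≤
        δ * η * X by
    have key := fin_all (fun d => ¬ Good a d) hs
    convert key
  intro δ hδ
  obtain ⟨η, hη, hη1, X0, hX0⟩ := short_all T2_TRIV AS0_true a ha (1 / 50) (by norm_num) δ hδ
  obtain ⟨X1, hX1⟩ := excBd_good a ha
  refine ⟨η, hη, hη1, max X0 X1, fun X hX => ?_⟩
  refine le_trans ?_ (hX0 X (le_trans (le_max_left _ _) hX))
  have hsub : ((Finset.Ioc X ⌊(1 + η) * (X : ℝ)⌋₊).filter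
        (fun D => ∃ d : ℕ, 1 < d ∧ Squarefree d ∧ ¬ Good a d ∧ D = Dof d)) ⊆
      (Finset.Ioc X ⌊(1 + η) * (X : ℝ)⌋₊).filter
        (fun D => IsFund D ∧ Bd a (1 / 50) X D) := by
    intro D hD
    rw [Finset.mem_filter] at hD ⊢
    obtain ⟨hD1, d, hd1, hds, hg, rfl⟩ := hD
    exact ⟨hD1, hX1 X (le_trans (le_max_right _ _) hX) d hd1 hds hg (Finset.mem_Ioc.1 hD1).1
      (short_le X η hη1 _ hD1)⟩
  exact_mod_cast Finset.card_le_card hsub

/-- all primes -/
theorem prime_good (a : ℝ) (ha : 2 < a) :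
    Tendsto (fun X : ℕ => (((Finset.Icc 2 X).filter (fun p => p.Prime ∧ ¬ Good a p)).card : ℝ) /
      (((Finset.Icc 2 X).filter Nat.Prime).card : ℝ)) atTop (nhds 0) := by
  suffices hs : ∀ δ : ℝ, 0 < δ → ∃ η : ℝ, 0 < η ∧ η ≤ 1 ∧ ∃ X0 : ℕ, ∀ X ≥ X0,
      (((Finset.Ioc X ⌊(1 + η) * (X : ℝ)⌋₊).filter
        (fun D => ∃ p : ℕ, p.Prime ∧ ¬ Good a p ∧ D = Dof p)).card : ℝ) ≤
        δ * η * X / Real.log X by
    have key := fin_primes T_NB (fun d => ¬ Good a d) hs
    convert key
  intro δ hδ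
  obtain ⟨η, hη, hη1, X0, hX0⟩ := short_primes AS0_true BH_true T2_RC a ha (1 / 50)
    (by norm_num) δ hδ
  obtain ⟨X1, hX1⟩ := excBd_good a ha
  refine ⟨η, hη, hη1, max X0 X1, fun X hX => ?_⟩
  refine le_trans ?_ (hX0 X (le_trans (le_max_left _ _) hX))
  have hsub : ((Finset.Ioc X ⌊(1 + η) * (X : ℝ)⌋₊).filter
        (fun D => ∃ p : ℕ, p.Prime ∧ ¬ Good a p ∧ D = Dof p)) ⊆
      (Finset.Ioc X ⌊(1 + η) * (X : ℝ)⌋₊).filter
        (fun D => (∃ p : ℕ, p.Prime ∧ (D = p ∨ D = 4 * p)) ∧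
          IsFund D ∧ Bd a (1 / 50) X D) := by
    intro D hD
    rw [Finset.mem_filter] at hD ⊢
    obtain ⟨hD1, p, hp, hg, rfl⟩ := hD
    refine ⟨hD1, ⟨p, hp, ?_⟩, hX1 X (le_trans (le_max_right _ _) hX) p hp.one_lt hp.squarefree hg
      (Finset.mem_Ioc.1 hD1).1 (short_le X η hη1 _ hD1)⟩
    unfold Dof
    split_ifs <;> simp
  exact_mod_cast Finset.card_le_card hsub

theorem icc_ioc (X : ℕ) (F : ℕ → Prop) [DecidablePred F] (hF : ∀ p, F p → p.Prime) :
    (Finset.Icc 2 X).filter F = (Finset.Ioc 0 X).filter F := by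
  ext p
  rw [Finset.mem_filter, Finset.mem_filter, Finset.mem_Icc, Finset.mem_Ioc]
  constructor
  · rintro ⟨⟨_, h2⟩, h3⟩
    exact ⟨⟨(hF p h3).pos, h2⟩, h3⟩
  · rintro ⟨⟨_, h2⟩, h3⟩
    exact ⟨⟨(hF p h3).two_le, h2⟩, h3⟩

theorem prime_good' (a : ℝ) (ha : 2 < a) :
    Tendsto (fun X : ℕ => (((Finset.Ioc 0 X).filter (fun p => p.Prime ∧ ¬ Good a p)).card : ℝ) /
      (((Finset.Ioc 0 X).filter Nat.Prime).card : ℝ)) atTop (nhds 0) := by
  refine (prime_good a ha).congr fun X => ?_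
  rw [icc_ioc X _ (fun p h => h.1), icc_ioc X _ (fun p h => h)]

theorem almost (F G : ℕ → Prop)
    (h : Tendsto (fun X : ℕ => (((Finset.Ioc 0 X).filter (fun D => F D ∧ ¬ G D)).card : ℝ) /
      (((Finset.Ioc 0 X).filter F).card : ℝ)) atTop (nhds 0)) : AlmostAll F G := by
  unfold AlmostAll
  refine h.congr (fun X => ?_)
  have e1 : Finset.Ioc 0 X = Finset.Icc 1 X := by
    ext d
    rw [mem_Ioc, mem_Icc]
    omega
  rw [e1]

theorem result : ∀ a : ℝ, 2 < a →
    Tendsto (fun X : ℕ => (((Finset.Icc 2 X).filter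
      (fun d => Squarefree d ∧ ¬ Good a d)).card : ℝ) / X) atTop (nhds 0) ∧
    AlmostAll Nat.Prime (Good a) ∧ AlmostAll TwicePrime (Good a) ∧
    AlmostAll PrimePair (Good a) ∧ AlmostAll Candidate (Good a) := by
  intro a ha
  refine ⟨sqf_good a ha, almost _ _ ?_, almost _ _ (two_good a ha),
    almost _ _ (semi_good a ha), almost _ _ ?_⟩
  · convert prime_good' a ha
  have key := union_lim Nat.Prime Two Semi (fun D => ¬ Good a D)
    (by convert prime_good' a ha) (by convert two_good a ha) (by convert semi_good a ha)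
  convert key
  all_goals rfl

end Pool.Agent.Results.MP_321647_nt.SpectralGap
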