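import Pool.Agent.W24.AR.Main

set_option autoImplicit false

/-!
# The generators of tiny primes on the circle of the fundamental unit

Let `a > 1` and `ε > 0`. For all but `O(X^(1-δ))` of the squarefree `d ≤ X`, `δ = δ(a, ε) > 0`, the
following holds for `K = ℚ(√d)` with real embeddings `σ`, `τ`, `B = (log d)^a`,
`n = log d / log log d`, and for all `c` with `1/2 + 1/(2a) ≤ c ≤ 1` simultaneously.
Let `E = (1 - c) a / (a - 1)` if `a ≥ 2` and `E = 3/2 + 1/a - 2c` if `a < 2`; so `0 ≤ E ≤ 1/2`, and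
for `a ≥ 2` the exponent `E` tends to `0` as `c` tends to `1`.

Write `ℓ x = log |σ x / τ x|`. The values of `ℓ` at the units of `K` form the group `Λ = 2 R ℤ`, `R` the
regulator, and `ℓ π` modulo `Λ` is the angle of the principal ideal `(π)`.

* Let `W` be ANY set of at least `B^c` PRINCIPAL prime ideals of norm at most `B`, and let `Γ` be a
  subgroup of `ℝ` which contains `Λ` with finite index `q`, thus `Γ = (2 R / q) ℤ`. If all members of
  `W` have a generator `π` such that `ℓ π` is within `1 / (2 n)` of the coset `t + Γ`, for some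
  `t ∈ ℝ`, then `q ≥ d^(1/2 - E - ε)`. So the angles of fewer than `B^c` of the tiny principal primes
  are close to a coset of a subgroup of the circle of order less than `d^(1/2 - E - ε)`.
* Let `W` be any set of at least `B^c` prime ideals of norm at most `B`, and `Z` a set of ideals such
  that every product of at most `n` members of `W` is `x z` with `z ∈ Z` and `|ℓ x| ≤ 1`. Then `Z` has
  at least `d^(1/2 - E - ε)` members. (There is always such a `Z` with `O(√d log d)` members.)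

The earlier result `TinyPrimesInCosets` is on the ideal classes of the tiny primes, and says nothing
if the class number is `1`; here it is the position within the ideal classes that matters. For the
fields with unique factorisation all sets `W` of prime ideals are admissible in the first part.
-/

namespace Pool.Agent.Results.MP_321647_nt.TinyPrimeAngles

open Finset NumberField
open scoped Classical

/-- The number `ℓ x = log |σ x / τ x|`. -/
noncomputable def ell {K : Type} [Field K] (σ τ : K →+* ℝ) (x : K) : ℝ :=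
  Real.log (|σ x / τ x|)

/-- The ideal `A` is `x z` for some `x ≠ 0` in `K` with `|ℓ x| ≤ 1`. -/
def Close {K : Type} [Field K] [NumberField K] (σ τ : K →+* ℝ) (z A : Ideal (𝓞 K)) : Prop :=
  ∃ x : K, x ≠ 0 ∧ FractionalIdeal.spanSingleton (nonZeroDivisors (𝓞 K)) x *
    (z : FractionalIdeal (nonZeroDivisors (𝓞 K)) K) = A ∧ |ell σ τ x| ≤ 1

/-- Every product of at most `n` members of `W` is close to a member of `Z`. -/
def Covered {K : Type} [Field K] [NumberField K] (σ τ : K →+* ℝ)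
    (W : Set (nonZeroDivisors (Ideal (𝓞 K)))) (n : ℝ) (Z : Finset (Ideal (𝓞 K))) : Prop :=
  ∀ L : Multiset (nonZeroDivisors (Ideal (𝓞 K))), (∀ P ∈ L, P ∈ W) → (L.card : ℝ) ≤ n →
    ∃ z ∈ Z, Close σ τ z ((L.prod : nonZeroDivisors (Ideal (𝓞 K))) : Ideal (𝓞 K))

theorem ell_mul {K : Type} [Field K] (σ τ : K →+* ℝ) {x y : K} (hx : x ≠ 0) (hy : y ≠ 0) :
    ell σ τ (x * y) = ell σ τ x + ell σ τ y := by
  have h1 : ∀ (f : K →+* ℝ) {z : K}, z ≠ 0 → f z ≠ 0 := fun f z hz => (map_ne_zero f).2 hz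
  unfold ell
  have hx1 : |σ x / τ x| ≠ 0 := abs_ne_zero.2 (div_ne_zero (h1 σ hx) (h1 τ hx))
  have hy1 : |σ y / τ y| ≠ 0 := abs_ne_zero.2 (div_ne_zero (h1 σ hy) (h1 τ hy))
  rw [← Real.log_mul hx1 hy1, ← abs_mul, map_mul, map_mul]
  congr 2
  have := h1 τ hx
  have := h1 τ hy
  field_simp

theorem ell_inv {K : Type} [Field K] (σ τ : K →+* ℝ) (x : K) :
    ell σ τ x⁻¹ = - ell σ τ x := by
  unfold ell
  rw [map_inv₀, map_inv₀, ← Real.log_inv, ← abs_inv]
  congr 2
  rw [inv_div_inv, inv_div]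

theorem ell_one {K : Type} [Field K] (σ τ : K →+* ℝ) : ell σ τ 1 = 0 := by
  unfold ell
  simp

theorem coe_mul' {K : Type} [Field K] [NumberField K] (x y : 𝓞 K) :
    ((x * y : 𝓞 K) : K) = (x : K) * (y : K) := rfl

theorem coe_inv' {K : Type} [Field K] [NumberField K] (u : (𝓞 K)ˣ) :
    (((u⁻¹ : (𝓞 K)ˣ) : 𝓞 K) : K) = ((u : 𝓞 K) : K)⁻¹ := by
  have h0 : ((u : 𝓞 K) : K) ≠ 0 := NumberField.Units.coe_ne_zero u
  refine eq_inv_of_mul_eq_one_left ?_
  rw [← coe_mul', Units.inv_mul]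
  rfl

/-- The group `Λ` of the numbers `ℓ u`, `u` a unit of the ring of integers. -/
def unitLogs {K : Type} [Field K] [NumberField K] (σ τ : K →+* ℝ) : AddSubgroup ℝ where
  carrier := {r | ∃ u : (𝓞 K)ˣ, ell σ τ ((u : 𝓞 K) : K) = r}
  zero_mem' := ⟨1, by simpa using ell_one σ τ⟩
  add_mem' := by
    rintro _ _ ⟨u, rfl⟩ ⟨v, rfl⟩
    refine ⟨u * v, ?_⟩
    rw [Units.val_mul, coe_mul', ell_mul]
    · exact NumberField.Units.coe_ne_zero u
    · exact NumberField.Units.coe_ne_zero v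
  neg_mem' := by
    rintro _ ⟨u, rfl⟩
    refine ⟨u⁻¹, ?_⟩
    rw [← ell_inv, coe_inv']

/-- The exponent `E`. -/
noncomputable def expo (a c : ℝ) : ℝ :=
  if 2 ≤ a then (1 - c) * a / (a - 1) else 3 / 2 + 1 / a - 2 * c

/-- The property of the squarefree integer `d` in the theorem. -/
def Good (a ε : ℝ) (d : ℕ) : Prop :=
  ∀ (K : Type) [Field K] [NumberField K], Module.finrank ℚ K = 2 → (∃ x : K, x ^ 2 = (d : K)) →
    ∀ σ τ : K →+* ℝ, σ ≠ τ → ∀ c : ℝ, 1 / 2 + 1 / (2 * a) ≤ c → c ≤ 1 →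
    ∀ W : Set (nonZeroDivisors (Ideal (𝓞 K))),
      (∀ J ∈ W, (J : Ideal (𝓞 K)).IsPrime ∧
        ((Ideal.absNorm (J : Ideal (𝓞 K)) : ℕ) : ℝ) ≤ (Real.log d) ^ a) →
      ((Real.log d) ^ a) ^ c ≤ (W.ncard : ℝ) →
      (∀ (Γ : AddSubgroup ℝ) (t : ℝ), unitLogs σ τ ≤ Γ → (unitLogs σ τ).relIndex Γ ≠ 0 →
        (∀ J ∈ W, ∃ π : 𝓞 K, (J : Ideal (𝓞 K)) = Ideal.span {π} ∧ ∃ γ ∈ Γ,
          |ell σ τ (π : K) - t - γ| ≤ 1 / (2 * (Real.log d / Real.log (Real.log d)))) →
        (d : ℝ) ^ (1 / 2 - expo a c - ε) ≤ ((unitLogs σ τ).relIndex Γ : ℝ)) ∧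
      (∀ Z : Finset (Ideal (𝓞 K)), Covered σ τ W (Real.log d / Real.log (Real.log d)) Z →
        (d : ℝ) ^ (1 / 2 - expo a c - ε) ≤ (Z.card : ℝ))

/-- principal ideals with generators near a coset: a small set of ideals is enough -/
theorem exists_cover {K : Type} [Field K] [NumberField K] (σ τ : K →+* ℝ)
    (W : Set (nonZeroDivisors (Ideal (𝓞 K)))) (n : ℝ) (hn : 0 < n) (Γ : AddSubgroup ℝ) (t : ℝ)
    (hΓ : (unitLogs σ τ).relIndex Γ ≠ 0)
    (hW : ∀ J ∈ W, ∃ π : 𝓞 K, (J : Ideal (𝓞 K)) = Ideal.span {π} ∧ ∃ γ ∈ Γ,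
      |ell σ τ (π : K) - t - γ| ≤ 1 / (2 * n)) :
    ∃ Z : Finset (Ideal (𝓞 K)), Covered σ τ W n Z ∧
      (Z.card : ℝ) ≤ (n + 1) * (unitLogs σ τ).relIndex Γ := by
  set Λ := (unitLogs σ τ).addSubgroupOf Γ with hΛ
  have hfin : Finite (Γ ⧸ Λ) := by
    have : Λ.index ≠ 0 := hΓ
    exact AddSubgroup.index_ne_zero_iff_finite.1 this
  have hft : Fintype (Γ ⧸ Λ) := Fintype.ofFinite _
  -- generators
  have hch : ∀ J : nonZeroDivisors (Ideal (𝓞 K)), ∃ (π : 𝓞 K) (γ : Γ), J ∈ W →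
      (J : Ideal (𝓞 K)) = Ideal.span {π} ∧ |ell σ τ (π : K) - t - (γ : ℝ)| ≤ 1 / (2 * n) := by
    intro J
    by_cases hJ : J ∈ W
    · obtain ⟨π, h1, γ, h2, h3⟩ := hW J hJ
      exact ⟨π, ⟨γ, h2⟩, fun _ => ⟨h1, h3⟩⟩
    · exact ⟨0, 0, fun h => absurd h hJ⟩
  choose π γ hπγ using hch
  have hπ0 : ∀ J ∈ W, ((π J : 𝓞 K) : K) ≠ 0 := by
    intro J hJ h0
    have h1 : π J = 0 := by exact_mod_cast h0
    have h2 := (hπγ J hJ).1
    rw [h1] at h2
    have h3 : (J : Ideal (𝓞 K)) = ⊥ := by rw [h2]; simp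
    exact nonZeroDivisors.coe_ne_zero J h3
  -- multisets
  have hms : ∀ L : Multiset (nonZeroDivisors (Ideal (𝓞 K))), (∀ P ∈ L, P ∈ W) →
      ((L.prod : nonZeroDivisors (Ideal (𝓞 K))) : Ideal (𝓞 K)) = Ideal.span {(L.map π).prod} ∧
      (((L.map π).prod : 𝓞 K) : K) ≠ 0 ∧
      |ell σ τ (((L.map π).prod : 𝓞 K) : K) - L.card * t - (((L.map γ).sum : Γ) : ℝ)| ≤
        L.card * (1 / (2 * n)) := by
    intro L
    induction L using Multiset.induction_on with
    | empty =>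
      intro _
      refine ⟨by simp, by simp, ?_⟩
      simp [ell_one]
    | cons J L ih =>
      intro hL
      obtain ⟨h1, h2, h3⟩ := ih fun P hP => hL P (Multiset.mem_cons_of_mem hP)
      have hJ := hL J (Multiset.mem_cons_self J L)
      obtain ⟨g1, g2⟩ := hπγ J hJ
      refine ⟨?_, ?_, ?_⟩
      · rw [Multiset.prod_cons, Submonoid.coe_mul, h1, g1, Multiset.map_cons, Multiset.prod_cons,
          Ideal.span_singleton_mul_span_singleton]
      · rw [Multiset.map_cons, Multiset.prod_cons, coe_mul']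
        exact mul_ne_zero (hπ0 J hJ) h2
      · rw [Multiset.map_cons, Multiset.prod_cons, coe_mul', ell_mul σ τ (hπ0 J hJ) h2,
          Multiset.map_cons, Multiset.sum_cons, Multiset.card_cons, AddSubgroup.coe_add,
          Nat.cast_add, Nat.cast_one]
        rw [abs_le] at g2 h3 ⊢
        constructor <;> linarith [g2.1, g2.2, h3.1, h3.2]
  -- labels
  let lab : Multiset (nonZeroDivisors (Ideal (𝓞 K))) → ℕ × (Γ ⧸ Λ) := fun L =>
    (L.card, QuotientAddGroup.mk (L.map γ).sum)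
  let Adm : Multiset (nonZeroDivisors (Ideal (𝓞 K))) → Prop := fun L =>
    (∀ P ∈ L, P ∈ W) ∧ (L.card : ℝ) ≤ n
  let rep : ℕ × (Γ ⧸ Λ) → Ideal (𝓞 K) := fun l =>
    if h : ∃ L, Adm L ∧ lab L = l then
      ((h.choose.prod : nonZeroDivisors (Ideal (𝓞 K))) : Ideal (𝓞 K)) else ⊥
  refine ⟨((Finset.range (⌊n⌋₊ + 1)) ×ˢ (Finset.univ : Finset (Γ ⧸ Λ))).image rep, ?_, ?_⟩
  · intro L hL1 hL2
    have hex : ∃ L', Adm L' ∧ lab L' = lab L := ⟨L, ⟨hL1, hL2⟩, rfl⟩
    refine ⟨rep (lab L), ?_, ?_⟩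
    · refine Finset.mem_image_of_mem _ ?_
      rw [Finset.mem_product]
      refine ⟨?_, Finset.mem_univ _⟩
      rw [Finset.mem_range]
      have := Nat.le_floor hL2
      show L.card < _
      omega
    · have hrep : rep (lab L) =
          ((hex.choose.prod : nonZeroDivisors (Ideal (𝓞 K))) : Ideal (𝓞 K)) := dif_pos hex
      rw [hrep]
      obtain ⟨⟨k1, k2⟩, k3⟩ := hex.choose_spec
      set L' := hex.choose with hL'
      obtain ⟨a1, a2, a3⟩ := hms L hL1
      obtain ⟨b1, b2, b3⟩ := hms L' k1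
      simp only [lab, Prod.mk.injEq] at k3
      obtain ⟨k4, k5⟩ := k3
      rw [QuotientAddGroup.eq] at k5
      obtain ⟨u, hu⟩ : ∃ u : (𝓞 K)ˣ, ell σ τ ((u : 𝓞 K) : K) =
          ((-(L'.map γ).sum + (L.map γ).sum : Γ) : ℝ) := k5
      have hu0 : ((u : 𝓞 K) : K) ≠ 0 := NumberField.Units.coe_ne_zero u
      set α : K := (((L.map π).prod : 𝓞 K) : K) with hα
      set β : K := (((L'.map π).prod : 𝓞 K) : K) with hβ
      refine ⟨α * β⁻¹ * ((u : 𝓞 K) : K)⁻¹, ?_, ?_, ?_⟩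
      · exact mul_ne_zero (mul_ne_zero a2 (inv_ne_zero b2)) (inv_ne_zero hu0)
      · rw [a1, b1, FractionalIdeal.coeIdeal_span_singleton,
          FractionalIdeal.coeIdeal_span_singleton,
          FractionalIdeal.spanSingleton_mul_spanSingleton]
        have e1 : α * β⁻¹ * ((u : 𝓞 K) : K)⁻¹ * β = (((u⁻¹ : (𝓞 K)ˣ) : 𝓞 K) : K) * α := by
          rw [coe_inv']
          field_simp
        show FractionalIdeal.spanSingleton _ (α * β⁻¹ * ((u : 𝓞 K) : K)⁻¹ * β) =
          FractionalIdeal.spanSingleton _ α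
        rw [e1]
        have e2 : FractionalIdeal.spanSingleton (nonZeroDivisors (𝓞 K))
            ((((u⁻¹ : (𝓞 K)ˣ) : 𝓞 K) : K)) = 1 := by
          have e3 : Ideal.span {((u⁻¹ : (𝓞 K)ˣ) : 𝓞 K)} = ⊤ :=
            Ideal.span_singleton_eq_top.2 (Units.isUnit _)
          have e4 := FractionalIdeal.coeIdeal_span_singleton (P := K)
            (S := nonZeroDivisors (𝓞 K)) ((u⁻¹ : (𝓞 K)ˣ) : 𝓞 K)
          rw [e3, FractionalIdeal.coeIdeal_top] at e4
          exact e4.symm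
        rw [← FractionalIdeal.spanSingleton_mul_spanSingleton, e2, one_mul]
      · rw [ell_mul σ τ (mul_ne_zero a2 (inv_ne_zero b2)) (inv_ne_zero hu0),
          ell_mul σ τ a2 (inv_ne_zero b2), ell_inv, ell_inv, hu, AddSubgroup.coe_add,
          AddSubgroup.coe_neg]
        rw [k4] at b3
        have hcard : (L.card : ℝ) * (1 / (2 * n)) ≤ 1 / 2 := by
          rw [mul_one_div, div_le_iff₀ (by positivity)]
          linarith
        rw [abs_le] at a3 b3 ⊢
        constructor <;> linarith [a3.1, a3.2, b3.1, b3.2]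
  · have h1 : (((Finset.range (⌊n⌋₊ + 1)) ×ˢ (Finset.univ : Finset (Γ ⧸ Λ))).image rep).card ≤
        (⌊n⌋₊ + 1) * Fintype.card (Γ ⧸ Λ) := by
      refine Finset.card_image_le.trans (le_of_eq ?_)
      rw [Finset.card_product, Finset.card_range, Finset.card_univ]
    have h2 : Fintype.card (Γ ⧸ Λ) = (unitLogs σ τ).relIndex Γ := by
      rw [← Nat.card_eq_fintype_card]
      rfl
    rw [h2] at h1
    have h3 : (⌊n⌋₊ : ℝ) ≤ n := Nat.floor_le hn.le
    calc ((((Finset.range (⌊n⌋₊ + 1)) ×ˢ (Finset.univ : Finset (Γ ⧸ Λ))).image rep).card : ℝ) ≤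
        (((⌊n⌋₊ + 1) * (unitLogs σ τ).relIndex Γ : ℕ) : ℝ) := by exact_mod_cast h1
      _ = ((⌊n⌋₊ : ℝ) + 1) * (unitLogs σ τ).relIndex Γ := by push_cast; ring
      _ ≤ _ := by gcongr

/-- For every `a > 1` and `ε > 0` all but `O(X^(1-δ))` of the squarefree `d ≤ X` have the property
`Good a ε d`, for some `δ > 0`. -/
theorem result : ∀ a ε : ℝ, 1 < a → 0 < ε → ∃ δ C : ℝ, 0 < δ ∧ 0 < C ∧
    ∀ X : ℕ, (((Finset.Icc 2 X).filter (fun d => Squarefree d ∧ ¬ Good a ε d)).card : ℝ) ≤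
      C * (X : ℝ) ^ (1 - δ) := by
  intro a ε ha hε
  obtain ⟨δ', C, hδ', hC, h⟩ := Pool.Agent.W24.AR.main a ha (ε / 2) (by positivity)
  set δ := min δ' (1 / 2) with hδ
  have hδpos : 0 < δ := lt_min hδ' (by norm_num)
  -- the large radicands
  obtain ⟨d0, hd0⟩ : ∃ d0 : ℕ, ∀ d ≥ d0, Real.log d + 1 ≤ (d : ℝ) ^ (ε / 2) ∧ 3 ≤ d ∧
      1 ≤ Real.log (Real.log d) := by
    have h1 := Pool.Agent.H38R2.CG2.ERRh.ev_log (ε / 2) (by positivity)
    have h2 := Pool.Agent.W24.NC.ev_log _ (Pool.Agent.W24.NC.ev_l 1)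
    obtain ⟨d0, hd0⟩ := Filter.eventually_atTop.1 ((h1.and h2).and (Filter.eventually_ge_atTop 3))
    refine ⟨d0, fun d hd => ⟨?_, (hd0 d hd).2, (hd0 d hd).1.2⟩⟩
    have := (hd0 d hd).1.1
    linarith
  have key : ∀ d : ℕ, d0 ≤ d → Pool.Agent.W24.AR.GoodA a (ε / 2) d → Good a ε d := by
    intro d hd hG K _ _ hK hx σ τ hστ c hc1 hc2 W hW hWc
    obtain ⟨g1, g2, g3⟩ := hd0 d hd
    have hdr : (1 : ℝ) ≤ d := by
      have : 1 ≤ d := by omega
      exact_mod_cast this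
    have hd0' : (0 : ℝ) < d := by linarith
    have hlog : 0 ≤ Real.log d := Real.log_natCast_nonneg d
    have hlog1 : 0 < Real.log d := Real.log_pos (by
      have : 1 < d := by omega
      exact_mod_cast this)
    have hpow : (Real.log d) ^ (a * c) = ((Real.log d) ^ a) ^ c := Real.rpow_mul hlog a c
    rw [← hpow] at hWc
    have hG1 : ∀ Z : Finset (Ideal (𝓞 K)),
        Covered σ τ W (Real.log d / Real.log (Real.log d)) Z →
        (d : ℝ) ^ (1 / 2 - expo a c - ε / 2) ≤ (Z.card : ℝ) :=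
      fun Z hZ => hG K hK hx σ τ hστ c hc1 hc2 W hW hWc Z hZ
    set n := Real.log d / Real.log (Real.log d) with hn
    have hn0 : 0 < n := div_pos hlog1 (by linarith)
    have hn1 : n + 1 ≤ (d : ℝ) ^ (ε / 2) := by
      have : n ≤ Real.log d := div_le_self hlog g3
      linarith
    refine ⟨fun Γ t _ hΓ hJ => ?_, fun Z hZ => ?_⟩
    · obtain ⟨Z, hZ, hZc⟩ := exists_cover σ τ W n hn0 Γ t hΓ hJ
      have h1 := (hG1 Z hZ).trans hZc
      have h2 : (d : ℝ) ^ (1 / 2 - expo a c - ε) * (d : ℝ) ^ (ε / 2) ≤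
          ((unitLogs σ τ).relIndex Γ : ℝ) * (d : ℝ) ^ (ε / 2) := by
        calc (d : ℝ) ^ (1 / 2 - expo a c - ε) * (d : ℝ) ^ (ε / 2) =
            (d : ℝ) ^ (1 / 2 - expo a c - ε / 2) := by
              rw [← Real.rpow_add hd0']
              congr 1
              ring
          _ ≤ (n + 1) * (unitLogs σ τ).relIndex Γ := h1
          _ ≤ (d : ℝ) ^ (ε / 2) * (unitLogs σ τ).relIndex Γ := by gcongr
          _ = _ := mul_comm _ _
      exact le_of_mul_le_mul_right h2 (Real.rpow_pos_of_pos hd0' _)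
    · refine le_trans ?_ (hG1 Z hZ)
      exact Real.rpow_le_rpow_of_exponent_le hdr (by linarith)
  refine ⟨δ, C + d0, hδpos, by positivity, fun X => ?_⟩
  have hsub : (Finset.Icc 2 X).filter (fun d => Squarefree d ∧ ¬ Good a ε d) ⊆
      (Finset.Icc 2 X).filter (fun d => Squarefree d ∧ ¬ Pool.Agent.W24.AR.GoodA a (ε / 2) d) ∪
        (if X = 0 then ∅ else Finset.range d0) := by
    intro d hd
    rw [Finset.mem_filter, Finset.mem_Icc] at hd
    rw [Finset.mem_union, Finset.mem_filter, Finset.mem_Icc]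
    by_cases h1 : d0 ≤ d
    · exact Or.inl ⟨hd.1, hd.2.1, fun hg => hd.2.2 (key d h1 hg)⟩
    · right
      rw [if_neg (by omega)]
      exact Finset.mem_range.2 (by omega)
  have h1 : (((Finset.Icc 2 X).filter (fun d => Squarefree d ∧ ¬ Good a ε d)).card : ℝ) ≤
      C * (X : ℝ) ^ (1 - δ') + ((if X = 0 then ∅ else Finset.range d0 : Finset ℕ).card : ℝ) := by
    refine le_trans ?_ (add_le_add_left (h X) _)
    exact_mod_cast (Finset.card_le_card hsub).trans (Finset.card_union_le _ _)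
  rcases Nat.eq_zero_or_pos X with rfl | hX
  · have : (((Finset.Icc 2 0).filter (fun d => Squarefree d ∧ ¬ Good a ε d)).card : ℝ) = 0 := by
      simp
    rw [this]
    positivity
  · rw [if_neg (by omega), Finset.card_range] at h1
    have hXr : (1 : ℝ) ≤ X := by exact_mod_cast hX
    have h2 : (X : ℝ) ^ (1 - δ') ≤ (X : ℝ) ^ (1 - δ) :=
      Real.rpow_le_rpow_of_exponent_le hXr (by have := min_le_left δ' (1 / 2 : ℝ); linarith)
    have h3 : (1 : ℝ) ≤ (X : ℝ) ^ (1 - δ) :=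
      Real.one_le_rpow hXr (by have := min_le_right δ' (1 / 2 : ℝ); linarith)
    have h4 : (0 : ℝ) ≤ d0 := Nat.cast_nonneg _
    calc _ ≤ C * (X : ℝ) ^ (1 - δ') + (d0 : ℝ) := h1
      _ ≤ C * (X : ℝ) ^ (1 - δ) + d0 * (X : ℝ) ^ (1 - δ) := by
        apply add_le_add
        · gcongr
        · nlinarith
      _ = _ := by ring

end Pool.Agent.Results.MP_321647_nt.TinyPrimeAngles
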