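import Pool.Agent.W24.NC.Main

set_option autoImplicit false

/-!
# Tiny prime ideals do not concentrate in cosets of subgroups of the class group

Let `a > 1` and `ε > 0`. For all but `O(X^(1-δ))` of the squarefree `d ≤ X`, `δ = δ(a, ε) > 0`, the
following holds for `K = ℚ(√d)`, `h` its class number, `B = (log d)^a`, `n = log d / log log d`, and
for all `c` with `1/2 + 1/(2a) ≤ c ≤ 1` simultaneously. Let `E = (1 - c) a / (a - 1)` if `a ≥ 2` and
`E = 3/2 + 1/a - 2c` if `a < 2`; so `0 ≤ E ≤ 1/2`.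

* Let `W` be ANY set (depending on `d` in any way) of at least `B^c` prime ideals of norm at most `B`.
  The products of at most `n` members of `W` lie in at least `h / d^(E + ε)` ideal classes.
* If `H` is a subgroup of the class group of index greater than `d^(E + ε)`, then every coset of `H`
  contains fewer than `B^c` of the prime ideals of norm at most `B`.
* If `h > d^(E + ε)`, then every ideal class contains fewer than `B^c` of the prime ideals of norm at
  most `B`. So if at least `B^c` of these prime ideals are principal, then `h ≤ d^(E + ε)`.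

For `c = 1` the exponent is `max (0, 1/a - 1/2)`, and `W` the set of all the prime ideals of norm at
most `B`, the first item is the starting result `TinyPrimesIndex` of this problem.
-/

namespace Pool.Agent.Results.MP_321647_nt.TinyPrimesInCosets

open Finset NumberField
open scoped Classical

/-- The ideal classes that are products of at most `n` classes of ideals of the set `W`. -/
def Products (K : Type) [Field K] [NumberField K] (W : Set (nonZeroDivisors (Ideal (𝓞 K))))
    (n : ℝ) : Set (ClassGroup (𝓞 K)) :=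
  {C | ∃ L : Multiset (nonZeroDivisors (Ideal (𝓞 K))), (∀ P ∈ L, P ∈ W) ∧
    (L.card : ℝ) ≤ n ∧ (L.map (fun P => ClassGroup.mk0 P)).prod = C}

/-- The prime ideals of norm at most `B` that lie in the coset `g H`. -/
def InCoset (K : Type) [Field K] [NumberField K] (B : ℝ) (H : Subgroup (ClassGroup (𝓞 K)))
    (g : ClassGroup (𝓞 K)) : Set (nonZeroDivisors (Ideal (𝓞 K))) :=
  {J | (J : Ideal (𝓞 K)).IsPrime ∧ ((Ideal.absNorm (J : Ideal (𝓞 K)) : ℕ) : ℝ) ≤ B ∧
    g⁻¹ * ClassGroup.mk0 J ∈ H}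

/-- The prime ideals of norm at most `B` that lie in the ideal class `C`. -/
def InClass (K : Type) [Field K] [NumberField K] (B : ℝ) (C : ClassGroup (𝓞 K)) :
    Set (nonZeroDivisors (Ideal (𝓞 K))) :=
  {J | (J : Ideal (𝓞 K)).IsPrime ∧ ((Ideal.absNorm (J : Ideal (𝓞 K)) : ℕ) : ℝ) ≤ B ∧
    ClassGroup.mk0 J = C}

/-- The exponent. -/
noncomputable def expo (a c : ℝ) : ℝ :=
  if 2 ≤ a then (1 - c) * a / (a - 1) else 3 / 2 + 1 / a - 2 * c

/-- The property of the squarefree integer `d` in the theorem. -/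
def Good (a ε : ℝ) (d : ℕ) : Prop :=
  ∀ (K : Type) [Field K] [NumberField K], Module.finrank ℚ K = 2 → (∃ x : K, x ^ 2 = (d : K)) →
    ∀ c : ℝ, 1 / 2 + 1 / (2 * a) ≤ c → c ≤ 1 →
    (∀ W : Set (nonZeroDivisors (Ideal (𝓞 K))),
      (∀ J ∈ W, (J : Ideal (𝓞 K)).IsPrime ∧
        ((Ideal.absNorm (J : Ideal (𝓞 K)) : ℕ) : ℝ) ≤ (Real.log d) ^ a) →
      ((Real.log d) ^ a) ^ c ≤ (W.ncard : ℝ) →
      (Nat.card (ClassGroup (𝓞 K)) : ℝ) ≤ (d : ℝ) ^ (expo a c + ε) *
        ((Products K W (Real.log d / Real.log (Real.log d))).ncard : ℝ)) ∧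
    (∀ (H : Subgroup (ClassGroup (𝓞 K))) (g : ClassGroup (𝓞 K)),
      (d : ℝ) ^ (expo a c + ε) < (H.index : ℝ) →
      ((InCoset K ((Real.log d) ^ a) H g).ncard : ℝ) < ((Real.log d) ^ a) ^ c) ∧
    ((d : ℝ) ^ (expo a c + ε) < (Nat.card (ClassGroup (𝓞 K)) : ℝ) →
      ∀ C : ClassGroup (𝓞 K),
        ((InClass K ((Real.log d) ^ a) C).ncard : ℝ) < ((Real.log d) ^ a) ^ c)

theorem products_coset (K : Type) [Field K] [NumberField K] (B n : ℝ)
    (H : Subgroup (ClassGroup (𝓞 K))) (g : ClassGroup (𝓞 K)) (hn : 0 ≤ n) :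
    ((Products K (InCoset K B H g) n).ncard : ℝ) ≤ (n + 1) * Nat.card H := by
  have hsub : Products K (InCoset K B H g) n ⊆
      ⋃ j ∈ Finset.range (⌊n⌋₊ + 1), ((fun x : ClassGroup (𝓞 K) => g ^ j * x) '' (H : Set _)) := by
    rintro C ⟨L, h1, h2, rfl⟩
    rw [Set.mem_iUnion₂]
    refine ⟨L.card, ?_, ?_⟩
    · rw [Finset.mem_range]
      have := Nat.le_floor h2
      omega
    · clear h2
      induction L using Multiset.induction_on with
      | empty => exact ⟨1, H.one_mem, by simp⟩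
      | cons J L ih =>
        obtain ⟨x, hx, hx'⟩ := ih fun P hP => h1 P (Multiset.mem_cons_of_mem hP)
        have hJ := (h1 J (Multiset.mem_cons_self J L)).2.2
        refine ⟨(g⁻¹ * ClassGroup.mk0 J) * x, H.mul_mem hJ hx, ?_⟩
        simp only at hx' ⊢
        rw [Multiset.card_cons, Multiset.map_cons, Multiset.prod_cons, ← hx', pow_succ]
        calc g ^ L.card * g * (g⁻¹ * ClassGroup.mk0 J * x) =
            g ^ L.card * (g * g⁻¹) * (ClassGroup.mk0 J * x) := by group
          _ = ClassGroup.mk0 J * (g ^ L.card * x) := by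
            rw [mul_inv_cancel, mul_one, ← mul_assoc, ← mul_assoc, mul_comm (g ^ L.card)]
  have h1 : (Products K (InCoset K B H g) n).ncard ≤
      ∑ j ∈ Finset.range (⌊n⌋₊ + 1),
        ((fun x : ClassGroup (𝓞 K) => g ^ j * x) '' (H : Set _)).ncard := by
    refine (Set.ncard_le_ncard hsub (Set.toFinite _)).trans ?_
    exact Finset.set_ncard_biUnion_le _ _
  have h2 : ∀ j ∈ Finset.range (⌊n⌋₊ + 1),
      ((fun x : ClassGroup (𝓞 K) => g ^ j * x) '' (H : Set _)).ncard = Nat.card H := by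
    intro j _
    rw [Set.ncard_image_of_injective _ (mul_right_injective (g ^ j))]
    rfl
  rw [Finset.sum_congr rfl h2, Finset.sum_const, Finset.card_range, smul_eq_mul] at h1
  have h3 : ((Products K (InCoset K B H g) n).ncard : ℝ) ≤ (⌊n⌋₊ + 1) * Nat.card H := by
    exact_mod_cast h1
  have h4 : (⌊n⌋₊ : ℝ) ≤ n := Nat.floor_le hn
  refine h3.trans ?_
  gcongr

/-- For every `a > 1` and `ε > 0` all but `O(X^(1-δ))` of the squarefree `d ≤ X` have the property
`Good a ε d`, for some `δ > 0`. -/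
theorem result : ∀ a ε : ℝ, 1 < a → 0 < ε → ∃ δ C : ℝ, 0 < δ ∧ 0 < C ∧
    ∀ X : ℕ, (((Finset.Icc 2 X).filter (fun d => Squarefree d ∧ ¬ Good a ε d)).card : ℝ) ≤
      C * (X : ℝ) ^ (1 - δ) := by
  intro a ε ha hε
  obtain ⟨δ', C, hδ', hC, h⟩ := Pool.Agent.W24.NC.main a ha (ε / 2) (by positivity)
  set δ := min δ' (1 / 2) with hδ
  have hδpos : 0 < δ := lt_min hδ' (by norm_num)
  -- the large radicands
  obtain ⟨d0, hd0⟩ : ∃ d0 : ℕ, ∀ d ≥ d0, Real.log d + 1 ≤ (d : ℝ) ^ (ε / 2) ∧ 3 ≤ d ∧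
      1 ≤ Real.log (Real.log d) := by
    have h1 := Pool.Agent.H38R2.CG2.ERRh.ev_log (ε / 2) (by positivity)
    have h2 := Pool.Agent.W24.NC.ev_log _ (Pool.Agent.W24.NC.ev_l 1)
    obtain ⟨d0, hd0⟩ := Filter.eventually_atTop.1 ((h1.and h2).and (Filter.eventually_ge_atTop 3))
    refine ⟨d0, fun d hd => ⟨?_, (hd0 d hd).2, (hd0 d hd).1.2⟩⟩
    have := (hd0 d hd).1.1
    linarith
  have key : ∀ d : ℕ, d0 ≤ d → Pool.Agent.W24.NC.GoodN a (ε / 2) d → Good a ε d := by
    intro d hd hG K _ _ hK hx c hc1 hc2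
    obtain ⟨g1, g2, g3⟩ := hd0 d hd
    have hdr : (1 : ℝ) ≤ d := by
      have : 1 ≤ d := by omega
      exact_mod_cast this
    have hd0' : (0 : ℝ) < d := by linarith
    have hlog : 0 ≤ Real.log d := Real.log_natCast_nonneg d
    have hG1 := hG K hK hx c hc1 hc2
    set n := Real.log d / Real.log (Real.log d) with hn
    have hn0 : 0 ≤ n := div_nonneg hlog (by linarith)
    have hn1 : n + 1 ≤ (d : ℝ) ^ (ε / 2) := by
      have : n ≤ Real.log d := div_le_self hlog g3
      linarith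
    have hpow : (Real.log d) ^ (a * c) = ((Real.log d) ^ a) ^ c := Real.rpow_mul hlog a c
    have hEE : Pool.Agent.W24.NC.EE a c = expo a c := rfl
    have hadd : (d : ℝ) ^ (expo a c + ε / 2) * (d : ℝ) ^ (ε / 2) = (d : ℝ) ^ (expo a c + ε) := by
      rw [← Real.rpow_add hd0']
      congr 1
      ring
    have hcoset : ∀ (H : Subgroup (ClassGroup (𝓞 K))) (g : ClassGroup (𝓞 K)),
        (d : ℝ) ^ (expo a c + ε) < (H.index : ℝ) →
        ((InCoset K ((Real.log d) ^ a) H g).ncard : ℝ) < ((Real.log d) ^ a) ^ c := by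
      intro H g hH
      by_contra hcon
      rw [not_lt, ← hpow] at hcon
      have h1 := hG1 (InCoset K ((Real.log d) ^ a) H g) (fun J hJ => ⟨hJ.1, hJ.2.1⟩) hcon
      have h2 := products_coset K ((Real.log d) ^ a) n H g hn0
      have h3 : (Nat.card (ClassGroup (𝓞 K)) : ℝ) = Nat.card H * H.index := by
        exact_mod_cast (Subgroup.card_mul_index H).symm
      have hHc : (0 : ℝ) < Nat.card H := by exact_mod_cast Nat.card_pos
      have h4 : (H.index : ℝ) * Nat.card H ≤ (d : ℝ) ^ (expo a c + ε) * Nat.card H := by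
        calc (H.index : ℝ) * Nat.card H = Nat.card (ClassGroup (𝓞 K)) := by rw [h3]; ring
          _ ≤ (d : ℝ) ^ (expo a c + ε / 2) *
            ((Products K (InCoset K ((Real.log d) ^ a) H g) n).ncard : ℝ) := h1
          _ ≤ (d : ℝ) ^ (expo a c + ε / 2) * ((n + 1) * Nat.card H) := by gcongr
          _ ≤ (d : ℝ) ^ (expo a c + ε / 2) * ((d : ℝ) ^ (ε / 2) * Nat.card H) := by gcongr
          _ = _ := by rw [← hadd]; ring
      exact absurd (le_of_mul_le_mul_right h4 hHc) (not_le.2 hH)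
    refine ⟨fun W hW hWc => ?_, hcoset, fun hh C => ?_⟩
    · rw [← hpow] at hWc
      refine (hG1 W hW hWc).trans ?_
      apply mul_le_mul_of_nonneg_right _ (Nat.cast_nonneg _)
      exact Real.rpow_le_rpow_of_exponent_le hdr (by rw [hEE]; linarith)
    · have h1 := hcoset ⊥ C (by rw [Subgroup.index_bot]; exact hh)
      have h2 : InCoset K ((Real.log d) ^ a) ⊥ C = InClass K ((Real.log d) ^ a) C := by
        ext J
        simp only [InCoset, InClass, Set.mem_ofPred_eq, Subgroup.mem_bot]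
        refine and_congr_right fun _ => and_congr_right fun _ => ?_
        rw [inv_mul_eq_one]
        exact eq_comm
      rwa [h2] at h1
  refine ⟨δ, C + d0, hδpos, by positivity, fun X => ?_⟩
  have hsub : (Finset.Icc 2 X).filter (fun d => Squarefree d ∧ ¬ Good a ε d) ⊆
      (Finset.Icc 2 X).filter (fun d => Squarefree d ∧ ¬ Pool.Agent.W24.NC.GoodN a (ε / 2) d) ∪
        (if X = 0 then ∅ else Finset.range d0) := by
    intro d hd
    rw [Finset.mem_filter, Finset.mem_Icc] at hd
    rw [Finset.mem_union, Finset.mem_filter, Finset.mem_Icc]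
    by_cases h1 : d0 ≤ d
    · exact Or.inl ⟨hd.1, hd.2.1, fun hg => hd.2.2 (key d h1 hg)⟩
    · right
      rw [if_neg (by omega)]
      exact Finset.mem_range.2 (by omega)
  have h1 : (((Finset.Icc 2 X).filter (fun d => Squarefree d ∧ ¬ Good a ε d)).card : ℝ) ≤
      C * (X : ℝ) ^ (1 - δ') + ((if X = 0 then ∅ else Finset.range d0 : Finset ℕ).card : ℝ) := by
    refine le_trans ?_ (add_le_add_left (h X) _)
    exact_mod_cast (Finset.card_le_card hsub).trans (Finset.card_union_le _ _)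
  rcases Nat.eq_zero_or_pos X with rfl | hX
  · have : (((Finset.Icc 2 0).filter (fun d => Squarefree d ∧ ¬ Good a ε d)).card : ℝ) = 0 := by
      simp
    rw [this]
    positivity
  · rw [if_neg (by omega), Finset.card_range] at h1
    have hXr : (1 : ℝ) ≤ X := by exact_mod_cast hX
    have h2 : (X : ℝ) ^ (1 - δ') ≤ (X : ℝ) ^ (1 - δ) :=
      Real.rpow_le_rpow_of_exponent_le hXr (by have := min_le_left δ' (1 / 2 : ℝ); linarith)
    have h3 : (1 : ℝ) ≤ (X : ℝ) ^ (1 - δ) :=
      Real.one_le_rpow hXr (by have := min_le_right δ' (1 / 2 : ℝ); linarith)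
    have h4 : (0 : ℝ) ≤ d0 := Nat.cast_nonneg _
    calc _ ≤ C * (X : ℝ) ^ (1 - δ') + (d0 : ℝ) := h1
      _ ≤ C * (X : ℝ) ^ (1 - δ) + d0 * (X : ℝ) ^ (1 - δ) := by
        apply add_le_add
        · gcongr
        · nlinarith
      _ = _ := by ring

end Pool.Agent.Results.MP_321647_nt.TinyPrimesInCosets
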